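import Pool.Agent.Lib.MP_4dddeb_co.TwoK2

namespace Pool.Agent.Results.MP_4dddeb_co.SingleGraphQ1

open Pool.Agent.Lib.MP_4dddeb_co

/-- Q1 is false, even for a single excluded minor: there is a graph `H` (on four vertices) such
that `{H}` is suitable and `gap_H(n) - |E_H(n)|` is unbounded. -/
theorem result : ∃ H : SimpleGraph (Fin 4), Suitable {⟨4, H⟩} ∧
    ∀ C : ℤ, ∃ n : ℕ, 1 ≤ n ∧
      C < (gap {⟨4, H⟩} n : ℤ) - ((edgeNumbers {⟨4, H⟩} n).ncard : ℤ) := by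
  refine ⟨twoK2, suitable_twoK2, fun C => ⟨C.toNat + 7, by omega, ?_⟩⟩
  have h1 : gap {⟨4, twoK2⟩} (C.toNat + 7) = C.toNat + 7 - 4 := gap_twoK2 (by omega)
  have h2 : (edgeNumbers {⟨4, twoK2⟩} (C.toNat + 7)).ncard ≤ 2 := ncard_twoK2 (by omega)
  omega

end Pool.Agent.Results.MP_4dddeb_co.SingleGraphQ1
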