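import Pool.Agent.Lib.MP_4dddeb_co.TwoK2

namespace Pool.Agent.Results.MP_4dddeb_co.SingleGraphQ2

open Pool.Agent.Lib.MP_4dddeb_co Filter

/-- Q2 is false, even for a single excluded minor: there is a graph `H` (on four vertices) such
that `{H}` is suitable, the class of `H`-free graphs is linearly impure, and
`|E_H(n)| / gap_H(n)` tends to `0`. -/
theorem result : ∃ H : SimpleGraph (Fin 4), Suitable {⟨4, H⟩} ∧ LinearlyImpure {⟨4, H⟩} ∧
    Tendsto (fun n : ℕ => ((edgeNumbers {⟨4, H⟩} n).ncard : ℝ) / (gap {⟨4, H⟩} n : ℝ))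
      atTop (nhds 0) := by
  refine ⟨twoK2, suitable_twoK2, ?_, ?_⟩
  · have h : (1 / 2 : ENNReal) ≤
        liminf (fun n : ℕ => (gap {⟨4, twoK2⟩} n : ENNReal) / (n : ENNReal)) atTop := by
      apply le_liminf_of_le
      · isBoundedDefault
      · filter_upwards [eventually_ge_atTop 8] with n hn
        rw [gap_twoK2 (by omega)]
        rw [ENNReal.le_div_iff_mul_le (Or.inl (by simp; omega)) (Or.inl (by simp))]
        rw [one_div, mul_comm, ← div_eq_mul_inv]
        apply ENNReal.div_le_of_le_mul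
        have : n ≤ (n - 4) * 2 := by omega
        exact_mod_cast this
    exact lt_of_lt_of_le (by simp) h
  · have hev : ∀ᶠ n : ℕ in atTop,
        ((edgeNumbers {⟨4, twoK2⟩} n).ncard : ℝ) / (gap {⟨4, twoK2⟩} n : ℝ) ≤ 4 / (n : ℝ) := by
      filter_upwards [eventually_ge_atTop 8] with n hn
      rw [gap_twoK2 (by omega)]
      have h2 : (((edgeNumbers {⟨4, twoK2⟩} n).ncard : ℕ) : ℝ) ≤ 2 := by
        exact_mod_cast ncard_twoK2 (by omega)
      have h3 : ((n - 4 : ℕ) : ℝ) = (n : ℝ) - 4 := by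
        rw [Nat.cast_sub (by omega)]; norm_num
      have hn' : (8 : ℝ) ≤ n := by exact_mod_cast hn
      rw [h3, div_le_div_iff₀ (by linarith) (by linarith)]
      nlinarith
    refine squeeze_zero' (Eventually.of_forall fun n => by positivity) hev ?_
    exact tendsto_const_div_atTop_nhds_zero_nat 4

end Pool.Agent.Results.MP_4dddeb_co.SingleGraphQ2
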