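import Pool.Agent.Lib.MP_4dddeb_co.TwoConnFinal

namespace Pool.Agent.Results.MP_4dddeb_co.TwoConnectedQ1

open Pool.Agent.Lib.MP_4dddeb_co

/-- Q1 is false even for sets of 2-connected graphs: there is a suitable set `ℋ` of 2-connected
graphs for which `gap_ℋ(n) - |E_ℋ(n)|` is unbounded. -/
theorem result : ∃ ℋ : Set FinGraph, Suitable ℋ ∧ (∀ X ∈ ℋ, TwoConnected X.2) ∧
    ∀ C : ℤ, ∃ n : ℕ, 1 ≤ n ∧ C < (gap ℋ n : ℤ) - ((edgeNumbers ℋ n).ncard : ℤ) :=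
  twoConnected_q1

end Pool.Agent.Results.MP_4dddeb_co.TwoConnectedQ1
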