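import Pool.Agent.Lib.MP_4dddeb_co.TwoConnFinal

namespace Pool.Agent.Results.MP_4dddeb_co.TwoConnectedQ2

open Pool.Agent.Lib.MP_4dddeb_co Filter

/-- Q2 is false even for sets of 2-connected graphs: there is a suitable set `ℋ` of 2-connected
graphs with `Ex(ℋ)` linearly impure for which `|E_ℋ(n)| / gap_ℋ(n)` is eventually below
`1/3 + ε` for every `ε > 0`; in particular it does not tend to `1`. -/
theorem result : ∃ ℋ : Set FinGraph, Suitable ℋ ∧ (∀ X ∈ ℋ, TwoConnected X.2) ∧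
    LinearlyImpure ℋ ∧
    (∀ ε : ℝ, 0 < ε → ∀ᶠ n : ℕ in atTop,
      ((edgeNumbers ℋ n).ncard : ℝ) / (gap ℋ n : ℝ) < 1 / 3 + ε) ∧
    ¬ Tendsto (fun n : ℕ => ((edgeNumbers ℋ n).ncard : ℝ) / (gap ℋ n : ℝ)) atTop (nhds 1) :=
  twoConnected_q2

end Pool.Agent.Results.MP_4dddeb_co.TwoConnectedQ2
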